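import Pool.Agent.H771.B.Bound

/-!
# An explicit upper bound for the packing density of the regular tetrahedron
-/

namespace Pool.Agent.Results.MP_f0daa1_co.TetraUpper

open Pool.Agent.H771

/-- For every regular tetrahedron in three dimensional space (the convex hull of four points at
equal positive distances) the packing density by congruent copies is at most
`1 - 799 / 10 ^ 14`. -/
theorem result (v : Fin 4 → EuclideanSpace ℝ (Fin 3)) (a : ℝ) (ha : 0 < a)
    (hv : ∀ i j, i ≠ j → dist (v i) (v j) = a) :
    packingDensity (convexHull ℝ (Set.range v)) ≤ ENNReal.ofReal (1 - 799 / 10 ^ 14) :=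
  packingDensity_le (fun _ _ F => B.limsup_bound F) v ha hv

end Pool.Agent.Results.MP_f0daa1_co.TetraUpper
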